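import Pool.Agent.N728.QL.Def

set_option autoImplicit false

/-! # Project QL: the weighted sieve bound -/

namespace Pool.Agent.N372.QL

open Finset MeasureTheory Pool.Agent.N728.QL

lemma VW_nonneg (w y : ℕ) : 0 ≤ VW w y := by
  unfold VW
  apply Finset.prod_nonneg
  intro p hp
  have h1 : (1 : ℝ) ≤ p := by exact_mod_cast (Finset.mem_filter.1 hp).2.one_le
  rw [sub_nonneg, div_le_one (by linarith)]
  exact h1

lemma rg_nonneg (w y : ℕ) (n : ℤ) : 0 ≤ rg w y n := by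
  unfold rg
  split_ifs <;> norm_num

lemma lz_nonneg (z : ℕ) (n : ℤ) : 0 ≤ lz z n := by
  unfold lz
  split_ifs
  · exact inv_nonneg.2 (VW_nonneg _ _)
  · exact le_rfl

lemma PP_pos (w y : ℕ) : 0 < PP w y := by
  unfold PP
  exact Finset.prod_pos fun p hp => (Finset.mem_filter.1 hp).2.pos

lemma root (B : ℕ) : ∃ b : ℕ, b ^ 200 ≤ B ∧ B < (b + 1) ^ 200 := by
  induction B with
  | zero => exact ⟨0, by simp, by simp⟩
  | succ B ih =>
    obtain ⟨b, h1, h2⟩ := ih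
    rcases lt_or_ge (B + 1) ((b + 1) ^ 200) with h | h
    · exact ⟨b, by omega, h⟩
    · refine ⟨b + 1, h, ?_⟩
      have : (b + 1) ^ 200 < (b + 1 + 1) ^ 200 := Nat.pow_lt_pow_left (by omega) (by norm_num)
      omega

lemma blocks (S R : ℕ → ℕ → ℝ) (h Y0 Y : ℕ) (h1 : 1 ≤ h)
    (hS : ∀ b c, Y0 ≤ b → b ≤ c → S Y0 c = S Y0 b + S b c)
    (hR : ∀ b c, Y0 ≤ b → b ≤ c → R Y0 c = R Y0 b + R b c)
    (hb : ∀ I1 I2, Y0 ≤ I1 → I2 ≤ Y → I1 + h ≤ I2 → I2 ≤ I1 + 2 * h → S I1 I2 ≤ R I1 I2) :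
    ∀ Y1, Y0 + h ≤ Y1 → Y1 ≤ Y → S Y0 Y1 ≤ R Y0 Y1 := by
  intro Y1
  induction Y1 using Nat.strong_induction_on with
  | _ Y1 ih =>
    intro h2 h3
    rcases le_or_gt Y1 (Y0 + 2 * h) with h4 | h4
    · exact hb Y0 Y1 le_rfl h3 h2 h4
    · have h5 := ih (Y1 - h) (by omega) (by omega) (by omega)
      have h6 := hb (Y1 - h) Y1 (by omega) h3 (by omega) (by omega)
      rw [hS (Y1 - h) Y1 (by omega) (by omega), hR (Y1 - h) Y1 (by omega) (by omega)]
      linarith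

lemma block_bound (X I1 I2 : ℕ) (F : ℕ → ℕ → ℝ) (hF : ∀ x t, 0 ≤ F x t) (W : ℝ → ℝ)
    (K e2 : ℝ) (hI : I1 < I2)
    (hU : ∑ x ∈ Icc 1 X, ∑ t ∈ Ioc I1 I2, F x t ≤ K * ((I2 : ℝ) - I1)) (hW0 : ∀ τ, 0 ≤ W τ)
    (hW : ∀ t ∈ Ioc I1 I2, ∀ τ ∈ Set.Icc (I1 : ℝ) I2, W t ≤ 2 * W τ + e2) (he : 0 ≤ e2)
    (hc : IntervalIntegrable W volume (I1 : ℝ) I2) :
    ∑ x ∈ Icc 1 X, ∑ t ∈ Ioc I1 I2, F x t * W t ≤ K * ∫ τ in (I1 : ℝ)..I2, (2 * W τ + e2) := by
  set S := ∑ x ∈ Icc 1 X, ∑ t ∈ Ioc I1 I2, F x t * W t with hSdef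
  have hIr : (I1 : ℝ) < I2 := by exact_mod_cast hI
  set δ : ℝ := (I2 : ℝ) - I1 with hδ
  have hδ0 : 0 < δ := by rw [hδ]; linarith
  have h1 : ∀ τ ∈ Set.Icc (I1 : ℝ) I2, S ≤ (K * δ) * (2 * W τ + e2) := by
    intro τ hτ
    have h2 : S ≤ ∑ x ∈ Icc 1 X, ∑ t ∈ Ioc I1 I2, F x t * (2 * W τ + e2) := by
      apply Finset.sum_le_sum
      intro x _
      apply Finset.sum_le_sum
      intro t ht
      exact mul_le_mul_of_nonneg_left (hW t ht τ hτ) (hF x t)
    refine h2.trans ?_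
    rw [← Finset.sum_congr rfl fun x _ => Finset.sum_mul (Ioc I1 I2) (fun t => F x t) _,
      ← Finset.sum_mul]
    exact mul_le_mul_of_nonneg_right hU (by have := hW0 τ; linarith)
  have hci : IntervalIntegrable (fun τ => 2 * W τ + e2) volume (I1 : ℝ) I2 :=
    (hc.const_mul 2).add intervalIntegrable_const
  have h3 : ∫ _τ in (I1 : ℝ)..I2, S ≤ ∫ τ in (I1 : ℝ)..I2, (K * δ) * (2 * W τ + e2) :=
    intervalIntegral.integral_mono_on hIr.le intervalIntegrable_const (hci.const_mul _) h1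
  rw [intervalIntegral.integral_const, intervalIntegral.integral_const_mul, smul_eq_mul,
    ← hδ] at h3
  have h4 : δ * S ≤ δ * (K * ∫ τ in (I1 : ℝ)..I2, (2 * W τ + e2)) := by
    refine h3.trans (le_of_eq ?_)
    ring
  exact le_of_mul_le_mul_left h4 hδ0

lemma cov (W : ℝ → ℝ) (hWc : Continuous W) (hW0 : ∀ s, 0 ≤ W s) (hWi : Integrable W)
    (m a b : ℝ) (ha : 0 < a) (hab : a ≤ b) :
    ∫ τ in a..b, W (m + Real.log τ) ≤ b * ∫ s, W s := by
  have hne : ∀ x ∈ Set.uIcc a b, x ≠ 0 := by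
    intro x hx
    rw [Set.uIcc_of_le hab] at hx
    have h : 0 < x := lt_of_lt_of_le ha hx.1
    exact h.ne'
  have hlog : ContinuousOn (fun x => m + Real.log x) (Set.uIcc a b) :=
    continuousOn_const.add (Real.continuousOn_log.mono fun x hx => hne x hx)
  have hinv : ContinuousOn (fun x : ℝ => x⁻¹) (Set.uIcc a b) :=
    continuousOn_inv₀.mono fun x hx => hne x hx
  have hW1 : ContinuousOn (fun x => W (m + Real.log x)) (Set.uIcc a b) :=
    hWc.comp_continuousOn hlog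
  have h1 : ∫ τ in a..b, (W ∘ fun x => m + Real.log x) τ * τ⁻¹ =
      ∫ s in (m + Real.log a)..(m + Real.log b), W s := by
    refine intervalIntegral.integral_comp_mul_deriv' (f := fun x => m + Real.log x)
      (f' := fun x => x⁻¹) (g := W) ?_ hinv hWc.continuousOn
    intro x hx
    exact (Real.hasDerivAt_log (hne x hx)).const_add m
  have h2 : ∫ τ in a..b, W (m + Real.log τ) ≤
      ∫ τ in a..b, b * ((W ∘ fun x => m + Real.log x) τ * τ⁻¹) := by
    refine intervalIntegral.integral_mono_on hab hW1.intervalIntegrable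
      ((hW1.mul hinv).intervalIntegrable.const_mul b) ?_
    intro x hx
    have hx0 : 0 < x := lt_of_lt_of_le ha hx.1
    have h3 : 1 ≤ b * x⁻¹ := by
      rw [← div_eq_mul_inv, le_div_iff₀ hx0]
      linarith [hx.2]
    have h4 := hW0 (m + Real.log x)
    show W (m + Real.log x) ≤ b * (W (m + Real.log x) * x⁻¹)
    nlinarith
  refine h2.trans ?_
  rw [intervalIntegral.integral_const_mul, h1]
  have hb0 : 0 ≤ b := by linarith
  apply mul_le_mul_of_nonneg_left _ hb0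
  have hlab : m + Real.log a ≤ m + Real.log b := by
    have := Real.log_le_log ha hab
    linarith
  rw [intervalIntegral.integral_of_le hlab]
  exact setIntegral_le_integral hWi (Filter.Eventually.of_forall hW0)

/-! ### The function `G` -/

/-- the sum of the translates -/
noncomputable def GG (D : Finset ℕ) (g : ℝ → ℝ) (s : ℝ) : ℝ := ∑ m ∈ D, g (s - Real.log m)

lemma GG_lip (D : Finset ℕ) (g : ℝ → ℝ) (L : ℝ) (hg : ∀ s s', |g s - g s'| ≤ L * |s - s'|)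
    (s s' : ℝ) : |GG D g s - GG D g s'| ≤ D.card * L * |s - s'| := by
  unfold GG
  rw [← Finset.sum_sub_distrib]
  refine (Finset.abs_sum_le_sum_abs _ _).trans ?_
  calc ∑ m ∈ D, |g (s - Real.log m) - g (s' - Real.log m)| ≤ ∑ m ∈ D, L * |s - s'| := by
        apply Finset.sum_le_sum
        intro m _
        refine (hg _ _).trans (le_of_eq ?_)
        congr 2
        ring
    _ = D.card * L * |s - s'| := by
        rw [Finset.sum_const, nsmul_eq_mul]
        ring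

lemma GG_le (D : Finset ℕ) (g : ℝ → ℝ) (hg : ∀ s, |g s| ≤ 2) (s : ℝ) :
    |GG D g s| ≤ 2 * D.card := by
  unfold GG
  refine (Finset.abs_sum_le_sum_abs _ _).trans ?_
  calc ∑ m ∈ D, |g (s - Real.log m)| ≤ ∑ m ∈ D, (2 : ℝ) := Finset.sum_le_sum fun m _ => hg _
    _ = 2 * D.card := by
        rw [Finset.sum_const, nsmul_eq_mul]
        ring

lemma g_cont (g : ℝ → ℝ) (L : ℝ) (hL : 0 ≤ L) (hg : ∀ s s', |g s - g s'| ≤ L * |s - s'|) :
    Continuous g := by
  have : LipschitzWith (Real.toNNReal L) g := by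
    apply LipschitzWith.of_dist_le_mul
    intro s s'
    rw [Real.dist_eq, Real.dist_eq, Real.coe_toNNReal _ hL]
    exact hg s s'
  exact this.continuous

lemma GG_cont (D : Finset ℕ) (g : ℝ → ℝ) (hg : Continuous g) : Continuous (GG D g) := by
  unfold GG
  exact continuous_finsetSum _ fun m _ => hg.comp (continuous_id.sub continuous_const)

lemma GG_int (D : Finset ℕ) (g : ℝ → ℝ) (hg : Continuous g) (s0 : ℝ)
    (hs : ∀ s, ¬ (s0 ≤ s ∧ s ≤ s0 + 10) → g s = 0) : Integrable fun s => GG D g s ^ 2 := by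
  have hc : Continuous fun s => GG D g s ^ 2 := (GG_cont D g hg).pow 2
  apply hc.integrable_of_hasCompactSupport
  have hK : IsCompact (⋃ m ∈ D, Set.Icc (s0 + Real.log m) (s0 + 10 + Real.log (m : ℕ))) :=
    D.isCompact_biUnion fun m _ => isCompact_Icc
  apply HasCompactSupport.intro hK
  intro s hsK
  have h1 : GG D g s = 0 := by
    unfold GG
    apply Finset.sum_eq_zero
    intro m hm
    apply hs
    rintro ⟨h2, h3⟩
    apply hsK
    simp only [Set.mem_iUnion]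
    exact ⟨m, hm, by linarith, by linarith⟩
  rw [h1]
  norm_num

lemma sq_le (x y e : ℝ) (h : |x - y| ≤ e) : x ^ 2 ≤ 2 * y ^ 2 + 2 * e ^ 2 := by
  have h1 : (x - y) ^ 2 ≤ e ^ 2 := by
    rw [← sq_abs (x - y)]
    exact pow_le_pow_left₀ (abs_nonneg _) h 2
  nlinarith [sq_nonneg (x - 2 * y)]

lemma log_diff {t τ Y0 d : ℝ} (hY : 0 < Y0) (ht : Y0 ≤ t) (hτ : Y0 ≤ τ) (h : |t - τ| ≤ d) :
    |Real.log t - Real.log τ| ≤ d / Y0 := by
  have ht0 : 0 < t := by linarith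
  have hτ0 : 0 < τ := by linarith
  have key : ∀ a b : ℝ, Y0 ≤ a → Y0 ≤ b → |a - b| ≤ d → Real.log a - Real.log b ≤ d / Y0 := by
    intro a b ha hb hab
    have ha0 : 0 < a := by linarith
    have hb0 : 0 < b := by linarith
    have hd0 : 0 ≤ d := (abs_nonneg _).trans hab
    have h1 : Real.log a - Real.log b ≤ a / b - 1 := by
      rw [← Real.log_div ha0.ne' hb0.ne']
      exact Real.log_le_sub_one_of_pos (div_pos ha0 hb0)
    refine h1.trans ?_
    have h2 : a / b - 1 = (a - b) / b := by field_simp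
    rw [h2]
    exact div_le_div₀ hd0 ((le_abs_self _).trans hab) hY hb
  rw [abs_le]
  constructor
  · have := key τ t hτ ht (by rwa [abs_sub_comm])
    linarith
  · exact key t τ ht hτ h

lemma pow50 {b : ℕ} (hb : 50 ≤ b) : (b + 1) ^ 50 ≤ b ^ 51 := by
  have h1 : 50 * (b + 1) ≤ 51 * b := by omega
  have h2 : (50 * (b + 1)) ^ 50 ≤ (51 * b) ^ 50 := Nat.pow_le_pow_left h1 50
  rw [mul_pow, mul_pow] at h2
  have h3 : 51 ^ 50 ≤ 50 ^ 51 := by norm_num
  have h4 : 50 ^ 50 * (b + 1) ^ 50 ≤ 50 ^ 50 * b ^ 51 := by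
    calc 50 ^ 50 * (b + 1) ^ 50 ≤ 51 ^ 50 * b ^ 50 := h2
      _ ≤ 50 ^ 51 * b ^ 50 := Nat.mul_le_mul_right _ h3
      _ = 50 ^ 50 * (50 * b ^ 50) := by ring
      _ ≤ 50 ^ 50 * (b * b ^ 50) := Nat.mul_le_mul_left _ (Nat.mul_le_mul_right _ hb)
      _ = 50 ^ 50 * b ^ 51 := by ring
  exact Nat.le_of_mul_le_mul_left h4 (by norm_num)

lemma params (B : ℕ) (hB1 : 50 ^ 200 ≤ B) : ∃ b : ℕ, 50 ≤ b ∧ b ^ 200 ≤ B ∧ B < (b + 1) ^ 200 ∧
    1 < B := by
  obtain ⟨b, hb1, hb2⟩ := root B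
  have h0 : (1 : ℕ) < 50 ^ 200 := by norm_num
  refine ⟨b, ?_, hb1, hb2, lt_of_lt_of_le h0 hB1⟩
  by_contra hcon
  push Not at hcon
  have h3 : (b + 1) ^ 200 ≤ 50 ^ 200 := Nat.pow_le_pow_left (by omega) _
  exact absurd (lt_of_lt_of_le hb2 h3) (not_lt.2 hB1)

/-- the analytic part -/
theorem core (M X Y Y0 h : ℕ) (b K lB L s0 : ℝ) (F : ℕ → ℕ → ℝ) (D : Finset ℕ) (g : ℝ → ℝ)
    (hb : 50 ≤ b) (hK0 : 0 ≤ K) (hF0 : ∀ x t, 0 ≤ F x t) (hlog0 : 0 < lB) (hlog : lB ≤ 200 * b)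
    (hDb : (D.card : ℝ) ≤ b) (hL0 : 0 ≤ L) (hLb : L ≤ 2 * b) (hg2 : ∀ s, |g s| ≤ 2)
    (hgL : ∀ s s', |g s - g s'| ≤ L * |s - s'|) (hgs : ∀ s, ¬ (s0 ≤ s ∧ s ≤ s0 + 10) → g s = 0)
    (hh1 : 1 ≤ h) (hhY : h ≤ Y0) (hYh : Y0 + h ≤ Y) (hhb : (h : ℝ) = b ^ 51)
    (hY61 : b ^ 61 ≤ Y0) (hY0b : (Y0 : ℝ) * b ^ 5 ≤ Y)
    (hU' : ∀ I1 I2 : ℕ, I1 + h ≤ I2 → I2 ≤ Y →
      ∑ x ∈ Icc 1 X, ∑ t ∈ Ioc I1 I2, F x t ≤ K * ((I2 : ℝ) - I1)) :
    ∑ x ∈ Icc 1 X, ∑ t ∈ Icc 1 Y, F x t * GG D g (Real.log M + Real.log t) ^ 2 ≤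
      2 * K * Y * ((∫ s, GG D g s ^ 2) + 1 / lB) := by
  have hbr0 : (0 : ℝ) < b := by linarith
  set W : ℝ → ℝ := fun s => GG D g s ^ 2 with hW
  have hW0 : ∀ s, 0 ≤ W s := fun s => sq_nonneg _
  have hgc : Continuous g := g_cont g L hL0 hgL
  have hWc : Continuous W := (GG_cont D g hgc).pow 2
  have hWi : Integrable W := GG_int D g hgc s0 hgs
  set J : ℝ := ∫ s, W s with hJ
  have hJ0 : 0 ≤ J := integral_nonneg hW0
  set V : ℝ → ℝ := fun τ => W (Real.log M + Real.log τ) with hV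
  have hV0 : ∀ τ, 0 ≤ V τ := fun τ => hW0 _
  have hVi : ∀ a a' : ℝ, 0 < a → a ≤ a' → IntervalIntegrable V volume a a' := by
    intro a a' ha haa
    apply ContinuousOn.intervalIntegrable
    rw [Set.uIcc_of_le haa]
    apply hWc.comp_continuousOn
    apply continuousOn_const.add
    apply Real.continuousOn_log.mono
    intro x hx
    have : 0 < x := lt_of_lt_of_le ha hx.1
    exact this.ne'
  set S : ℕ → ℕ → ℝ := fun I1 I2 => ∑ x ∈ Icc 1 X, ∑ t ∈ Ioc I1 I2, F x t * V t with hS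
  have hSadd : ∀ a b c : ℕ, a ≤ b → b ≤ c → S a c = S a b + S b c := by
    intro a b c h3 h4
    rw [hS]
    dsimp only
    rw [← Finset.sum_add_distrib]
    apply Finset.sum_congr rfl
    intro x _
    exact (Finset.sum_Ioc_consecutive _ h3 h4).symm
  have hY01 : 1 ≤ Y0 := hh1.trans hhY
  have hY0r : (0 : ℝ) < Y0 := by exact_mod_cast hY01
  have hYr : (0 : ℝ) < Y := by
    have : 0 < Y := by omega
    exact_mod_cast this
  have hYY : (Y0 : ℝ) ≤ Y := by exact_mod_cast (by omega : Y0 ≤ Y)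
  set e2 : ℝ := 1 / lB with he2
  have he20 : 0 < e2 := by rw [he2]; exact one_div_pos.2 hlog0
  -- first part
  have hpart1 : S 0 Y0 ≤ K * (Y * e2) := by
    have h3 : S 0 Y0 ≤ ∑ x ∈ Icc 1 X, ∑ t ∈ Ioc 0 Y0, F x t * (2 * (D.card : ℝ)) ^ 2 := by
      apply Finset.sum_le_sum
      intro x _
      apply Finset.sum_le_sum
      intro t _
      apply mul_le_mul_of_nonneg_left _ (hF0 x t)
      have h4 := GG_le D g hg2 (Real.log M + Real.log t)
      show GG D g (Real.log M + Real.log t) ^ 2 ≤ _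
      rw [← sq_abs]
      exact pow_le_pow_left₀ (abs_nonneg _) h4 2
    rw [← Finset.sum_congr rfl fun x _ => Finset.sum_mul (Ioc 0 Y0) (fun t => F x t) _,
      ← Finset.sum_mul] at h3
    have h5 := hU' 0 Y0 (by omega) (by omega)
    have h6 : S 0 Y0 ≤ K * Y0 * (2 * (D.card : ℝ)) ^ 2 := by
      refine h3.trans ?_
      apply mul_le_mul_of_nonneg_right _ (sq_nonneg _)
      refine h5.trans (le_of_eq ?_)
      push_cast
      ring
    refine h6.trans ?_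
    rw [mul_assoc]
    apply mul_le_mul_of_nonneg_left _ hK0
    have h8 : (2 * (D.card : ℝ)) ^ 2 ≤ 4 * b ^ 2 := by
      calc (2 * (D.card : ℝ)) ^ 2 ≤ (2 * b) ^ 2 :=
            pow_le_pow_left₀ (by positivity) (by linarith) 2
        _ = 4 * b ^ 2 := by ring
    rw [he2, mul_one_div, le_div_iff₀ hlog0]
    have hb2 : 0 < b ^ 2 := pow_pos hbr0 2
    have hb3 : 0 < b ^ 3 := pow_pos hbr0 3
    calc (Y0 : ℝ) * (2 * (D.card : ℝ)) ^ 2 * lB
        ≤ (Y0 : ℝ) * (4 * b ^ 2) * (200 * b) := by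
          apply mul_le_mul _ hlog hlog0.le (mul_nonneg hY0r.le (by linarith))
          exact mul_le_mul_of_nonneg_left h8 hY0r.le
      _ = (Y0 : ℝ) * b ^ 3 * 800 := by ring
      _ ≤ (Y0 : ℝ) * b ^ 3 * b ^ 2 := by
          apply mul_le_mul_of_nonneg_left _ (mul_nonneg hY0r.le hb3.le)
          nlinarith
      _ = (Y0 : ℝ) * b ^ 5 := by ring
      _ ≤ Y := hY0b
  -- second part
  set R : ℕ → ℕ → ℝ := fun I1 I2 => K * ∫ τ in (I1 : ℝ)..I2, (2 * V τ + e2) with hR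
  have hRi : ∀ a a' : ℝ, 0 < a → a ≤ a' →
      IntervalIntegrable (fun τ => 2 * V τ + e2) volume a a' := fun a a' h3 h4 =>
    ((hVi a a' h3 h4).const_mul 2).add intervalIntegrable_const
  have h8 : 2 * (h : ℝ) / Y0 ≤ 2 / b ^ 10 := by
    rw [div_le_div_iff₀ hY0r (pow_pos hbr0 10), hhb]
    have h9 : 2 * b ^ 51 * b ^ 10 = 2 * b ^ 61 := by ring
    rw [h9]
    linarith
  have h7 : (D.card : ℝ) * L ≤ b * (2 * b) := mul_le_mul hDb hLb hL0 hbr0.le
  have h12 : 2 * (4 / b ^ 8) ^ 2 ≤ e2 := by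
    have hb16 : 0 < (b ^ 8) ^ 2 := pow_pos (pow_pos hbr0 8) 2
    rw [he2, div_pow, ← mul_div_assoc, div_le_div_iff₀ hb16 hlog0]
    calc 2 * (4 : ℝ) ^ 2 * lB ≤ 2 * (4 : ℝ) ^ 2 * (200 * b) :=
          mul_le_mul_of_nonneg_left hlog (by norm_num)
      _ ≤ 1 * (b ^ 8) ^ 2 := by
          have h13 : (50 : ℝ) ^ 15 ≤ b ^ 15 := pow_le_pow_left₀ (by norm_num) hb 15
          have h14 : (6400 : ℝ) ≤ (50 : ℝ) ^ 15 := by norm_num
          calc 2 * (4 : ℝ) ^ 2 * (200 * b) = 6400 * b := by ring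
            _ ≤ b ^ 15 * b := mul_le_mul_of_nonneg_right (h14.trans h13) hbr0.le
            _ = 1 * (b ^ 8) ^ 2 := by ring
  have h15 : (b * (2 * b)) * (2 / b ^ 10) = 4 / b ^ 8 := by
    field_simp
    ring
  have hpart2 : S Y0 Y ≤ R Y0 Y := by
    refine blocks S R h Y0 Y hh1 (fun b' c' h3 h4 => hSadd Y0 b' c' h3 h4) ?_ ?_ Y hYh le_rfl
    · intro b' c' h3 h4
      have h3' : (Y0 : ℝ) ≤ b' := by exact_mod_cast h3
      have h4' : (b' : ℝ) ≤ c' := by exact_mod_cast h4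
      rw [hR]
      dsimp only
      rw [← mul_add, intervalIntegral.integral_add_adjacent_intervals (hRi _ _ hY0r h3')
        (hRi _ _ (by linarith) h4')]
    · intro I1 I2 h3 h4 h5 h6
      have h3' : (Y0 : ℝ) ≤ I1 := by exact_mod_cast h3
      have h12 : I1 < I2 := by omega
      have h12' : (I1 : ℝ) < I2 := by exact_mod_cast h12
      have h6' : (I2 : ℝ) - I1 ≤ 2 * h := by
        have : (I2 : ℝ) ≤ I1 + 2 * h := by exact_mod_cast h6
        linarith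
      refine block_bound X I1 I2 F hF0 V K e2 h12 ?_ hV0 ?_ he20.le
        (hVi _ _ (by linarith) h12'.le)
      · exact hU' I1 I2 h5 h4
      · intro t ht τ hτ
        rw [Finset.mem_Ioc] at ht
        have ht1 : (I1 : ℝ) < t := by exact_mod_cast ht.1
        have ht2 : (t : ℝ) ≤ I2 := by exact_mod_cast ht.2
        have hd : |(t : ℝ) - τ| ≤ 2 * h := by
          rw [abs_le]
          constructor
          · linarith [hτ.1, hτ.2]
          · linarith [hτ.1, hτ.2]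
        have hl := log_diff hY0r (by linarith : (Y0 : ℝ) ≤ t) (h3'.trans hτ.1) hd
        have hG := GG_lip D g L hgL (Real.log M + Real.log t) (Real.log M + Real.log τ)
        have e1 : Real.log M + Real.log t - (Real.log M + Real.log τ) =
            Real.log t - Real.log τ := by ring
        rw [e1] at hG
        have hG2 : |GG D g (Real.log M + Real.log t) - GG D g (Real.log M + Real.log τ)| ≤
            4 / b ^ 8 := by
          refine hG.trans ?_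
          rw [← h15]
          exact mul_le_mul h7 (hl.trans h8) (abs_nonneg _) (by positivity)
        have h11 := sq_le _ _ _ hG2
        show GG D g (Real.log M + Real.log t) ^ 2 ≤
          2 * GG D g (Real.log M + Real.log τ) ^ 2 + e2
        linarith
  have hcov : ∫ τ in (Y0 : ℝ)..Y, V τ ≤ Y * J :=
    cov W hWc hW0 hWi (Real.log M) Y0 Y hY0r hYY
  have hR2 : R Y0 Y ≤ K * (2 * (Y * J) + Y * e2) := by
    rw [hR]
    apply mul_le_mul_of_nonneg_left _ hK0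
    rw [intervalIntegral.integral_add ((hVi _ _ hY0r hYY).const_mul 2) intervalIntegrable_const,
      intervalIntegral.integral_const_mul, intervalIntegral.integral_const, smul_eq_mul]
    have h3 : ((Y : ℝ) - Y0) * e2 ≤ Y * e2 :=
      mul_le_mul_of_nonneg_right (by linarith) he20.le
    linarith
  have hIoc : Icc 1 Y = Ioc 0 Y := by
    ext t
    simp only [Finset.mem_Icc, Finset.mem_Ioc]
    omega
  rw [hIoc]
  show S 0 Y ≤ _
  rw [hSadd 0 Y0 Y (Nat.zero_le _) (by omega)]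
  have h3 : S 0 Y0 + S Y0 Y ≤ K * (Y * e2) + K * (2 * (Y * J) + Y * e2) :=
    add_le_add hpart1 (hpart2.trans hR2)
  refine h3.trans (le_of_eq ?_)
  ring

/-- the weighted sieve bound -/
theorem t_DS (h1 : ∀ c : ℤ, c ≠ 0 → S_U1 c) (_h2 : S_MER) : ∀ c : ℤ, c ≠ 0 → S_DS c := by
  intro c hc
  obtain ⟨C, hC, k0, B0, hU⟩ := h1 c hc
  refine ⟨2 * C, by positivity, max k0 200, max B0 (50 ^ 200), ?_⟩
  intro B hB z w y M X Y D L s0 g hz hw hwy hzB hyB hMB hM hX3 hX2 hY3 hY2 hDB hD1 hL1 hLB hg2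
    hgL hgs
  have hB0 : B0 ≤ B := (le_max_left _ _).trans hB
  obtain ⟨b, hb50, hb1, hb2, hBpos⟩ := params B ((le_max_right _ _).trans hB)
  clear hB
  have hM1 : 1 ≤ M := Nat.pos_of_dvd_of_pos hM (PP_pos _ _)
  have hk : ∀ x : ℕ, 1 ≤ x → x ^ max k0 200 ≤ B → x ^ k0 ≤ B := fun x hx h =>
    (Nat.pow_le_pow_right hx (le_max_left _ _)).trans h
  have hX1 : 1 ≤ X := by
    rcases Nat.eq_zero_or_pos X with h | h
    · rw [h] at hX3
      norm_num at hX3
      omega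
    · exact h
  have hX4 : B ≤ X ^ 4 := hX3.trans (Nat.pow_le_pow_right hX1 (by norm_num))
  have hY66 : b ^ 66 ≤ Y := by
    by_contra hcon
    push Not at hcon
    have h3 : Y ^ 3 < (b ^ 66) ^ 3 := Nat.pow_lt_pow_left hcon (by norm_num)
    rw [← pow_mul] at h3
    have h4 : b ^ (66 * 3) ≤ b ^ 200 := Nat.pow_le_pow_right (by omega) (by norm_num)
    omega
  have hb50' : 0 < b ^ 5 := pow_pos (by omega) 5
  obtain ⟨Y0, hY0⟩ : ∃ Y0, Y0 = Y / b ^ 5 := ⟨_, rfl⟩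
  obtain ⟨h, hh⟩ : ∃ h, h = b ^ 51 := ⟨_, rfl⟩
  have hY61 : b ^ 61 ≤ Y0 := by
    rw [hY0, Nat.le_div_iff_mul_le hb50', ← pow_add]
    exact hY66
  have hY0b : Y0 * b ^ 5 ≤ Y := by
    rw [hY0]
    exact Nat.div_mul_le_self _ _
  have hb51 : h ≤ Y0 := by
    rw [hh]
    exact (Nat.pow_le_pow_right (by omega) (by norm_num)).trans hY61
  have hB4 : B ≤ h ^ 4 := by
    have h3 : (b + 1) ^ 200 = ((b + 1) ^ 50) ^ 4 := by rw [← pow_mul]
    have h4 : ((b + 1) ^ 50) ^ 4 ≤ h ^ 4 := by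
      rw [hh]
      exact Nat.pow_le_pow_left (pow50 hb50) 4
    omega
  have hh1 : 1 ≤ h := by
    rw [hh]
    exact Nat.one_le_pow _ _ (by omega)
  have hb5 : 2 ≤ b ^ 5 := by
    calc 2 ≤ b := by omega
      _ = b ^ 1 := (pow_one b).symm
      _ ≤ b ^ 5 := Nat.pow_le_pow_right (by omega) (by norm_num)
  have hYh : Y0 + h ≤ Y := by
    have h3 : Y0 * 2 ≤ Y := (Nat.mul_le_mul_left _ hb5).trans hY0b
    omega
  have hDb : D.card ≤ b := by
    rcases Nat.eq_zero_or_pos D.card with h3 | h3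
    · omega
    · have h4 : D.card ^ 200 < (b + 1) ^ 200 :=
        lt_of_le_of_lt ((Nat.pow_le_pow_right h3 (le_max_right k0 200)).trans hDB) hb2
      have := lt_of_pow_lt_pow_left₀ 200 (Nat.zero_le _) h4
      omega
  have hbr : (50 : ℝ) ≤ b := by exact_mod_cast hb50
  have hLb : L ≤ 2 * b := by
    have h3 : L ^ 200 < ((b : ℝ) + 1) ^ 200 := by
      have h4 : L ^ 200 ≤ (B : ℝ) := (pow_le_pow_right₀ hL1 (le_max_right k0 200)).trans hLB
      have h5 : (B : ℝ) < ((b : ℝ) + 1) ^ 200 := by exact_mod_cast hb2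
      exact lt_of_le_of_lt h4 h5
    have h6 := lt_of_pow_lt_pow_left₀ 200 (by linarith) h3
    linarith
  have hBr : (1 : ℝ) < B := by exact_mod_cast hBpos
  have hlog0 : 0 < Real.log B := Real.log_pos hBr
  have hlog : Real.log B ≤ 200 * b := by
    have h3 : Real.log B ≤ Real.log (((b : ℝ) + 1) ^ 200) := by
      apply Real.log_le_log (by linarith)
      exact_mod_cast hb2.le
    rw [Real.log_pow] at h3
    have h4 := Real.log_le_sub_one_of_pos (by linarith : (0 : ℝ) < (b : ℝ) + 1)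
    push_cast at h3
    linarith
  have hK0 : 0 ≤ C * ((M : ℝ) / Nat.totient M) * VW w y ^ 2 * X :=
    mul_nonneg (mul_nonneg (mul_nonneg hC.le (div_nonneg (Nat.cast_nonneg _)
      (Nat.cast_nonneg _))) (sq_nonneg _)) (Nat.cast_nonneg _)
  have hfin := core M X Y Y0 h (b : ℝ) (C * ((M : ℝ) / Nat.totient M) * VW w y ^ 2 * X)
    (Real.log B) L s0 (fun x t => rg w y x * rg w y t * lz z ((M : ℤ) * x * t + c)) D g hbr hK0
    (fun x t => mul_nonneg (mul_nonneg (rg_nonneg _ _ _) (rg_nonneg _ _ _)) (lz_nonneg _ _))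
    hlog0 hlog (by exact_mod_cast hDb) (by linarith) hLb hg2 hgL hgs hh1 hb51 hYh
    (by rw [hh]; push_cast; rfl) (by exact_mod_cast hY61) (by exact_mod_cast hY0b) ?_
  · refine le_trans (le_of_eq ?_) (hfin.trans (le_of_eq ?_))
    · rfl
    · show 2 * (C * ((M : ℝ) / Nat.totient M) * VW w y ^ 2 * X) * Y *
        ((∫ s, GG D g s ^ 2) + 1 / Real.log B) = 2 * C * ((M : ℝ) / Nat.totient M) *
        VW w y ^ 2 * ((X : ℝ) * Y) * ((∫ s, GG D g s ^ 2) + 1 / Real.log B)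
      ring
  · intro I1 I2 h3 h5
    have h4 : B ≤ (I2 - I1) ^ 4 := hB4.trans (Nat.pow_le_pow_left (by omega) 4)
    have h6 := hU B hB0 z w y M X I1 I2 hz hw hwy (hk z (by omega) hzB) (hk y (by omega) hyB)
      (hk M hM1 hMB) hM hX4 hX2 (by omega) h4 (h5.trans hY2)
    refine h6.trans (le_of_eq ?_)
    ring

end Pool.Agent.N372.QL
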